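import Pool.Agent.H140.VR.Ribbon

/-!
# Vertical rotations of one-column grid classes are Schur positive

The definitions (`fundamental`, `quasi`, `schur`, `IsSchurPositive`, `grid`, `rotations`) are in
`Pool.Agent.H140.VR.Defs`.

Idea.  The set of all vertical rotations of a one-column grid class is described by a rotation
invariant property of the cyclic descent set of the inverse permutation
(`x` such that `x + 1 mod n` stands to the left of `x`).  By stable sorting, the coefficient of `x^a`
in the quasisymmetric function of such a set counts the words `g` of content `a` with a rotation
invariant property of the cyclic descent set.  Rotating such a word so that a largest letter comes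
last, and inserting this letter at the right place, one finds that their number is the number of
words `g` of content `a` for which `(D(g) without n-1) ∪ {n}` has the property, `D(g)` being the
ordinary descent set (`main_card`).  These words are counted by a sum of ribbon Schur functions,
whose Schur positivity is proved here by row insertion (`ribbon`).
-/

set_option autoImplicit false

namespace Pool.Agent.Results.MP_8317ba_co.VerticalRotations

open Pool.Agent.H140.VR

/-- **Q1 (answer: true).** For all `k ≥ 1`, all sign vectors `v` of length `k` and all `n ≥ 1` the
set of all vertical rotations of the elements of the one-column grid class of `v` is fine
(Schur positive). -/
theorem result (k : ℕ) (_ : 1 ≤ k) (v : Fin k → Bool) (n : ℕ) (hn : 1 ≤ n) :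
    IsSchurPositive n (quasi (rotations (grid v n))) :=
  fine ribbon v n hn

end Pool.Agent.Results.MP_8317ba_co.VerticalRotations
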